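import Mathlib
import Pool.Agent.Helper472.LatMainG

set_option autoImplicit false

namespace Pool.Agent.Results.MP_45783b_al.CommutativeComponent

/-- Let `G`, `H` be locally compact Hausdorff groups with isomorphic lattices of closed subgroups,
`G` inductively compact, and suppose that every compact subgroup of `G` has a commutative identity
component (for instance: `G` totally disconnected, or `G` solvable). Then `H` is inductively
compact. -/
theorem result :
    ∀ (G H : Type) [Group G] [TopologicalSpace G] [IsTopologicalGroup G]
      [LocallyCompactSpace G] [T2Space G]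
      [Group H] [TopologicalSpace H] [IsTopologicalGroup H]
      [LocallyCompactSpace H] [T2Space H],
      Nonempty ({K : Subgroup G // IsClosed (K : Set G)} ≃o
        {K : Subgroup H // IsClosed (K : Set H)}) →
      (∀ C : Subgroup G, IsCompact (C : Set G) →
        ∀ a ∈ Subgroup.connectedComponentOfOne ↥C, ∀ b ∈ Subgroup.connectedComponentOfOne ↥C,
          a * b = b * a) →
      (∀ F : Finset G, ∃ K : Subgroup G, IsCompact (K : Set G) ∧ (↑F : Set G) ⊆ (K : Set G)) →
      (∀ F : Finset H, ∃ K : Subgroup H, IsCompact (K : Set H) ∧ (↑F : Set H) ⊆ (K : Set H)) := by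
  intro G H _ _ _ _ _ _ _ _ _ _ hφ hC hG
  obtain ⟨φ⟩ := hφ
  exact Pool.LatH472.C_G4 G H hC φ hG
    (Pool.LatH472.A_elem_iso G H φ (Pool.LatH472.A_elem G hG))

end Pool.Agent.Results.MP_45783b_al.CommutativeComponent
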